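import Mathlib
import Pool.Agent.U37.LC.Stm2

/-!
Project LC, jobs `Ker` and `ApproxN`.
-/

set_option autoImplicit false

open MeasureTheory Filter Topology Complex
open scoped ComplexConjugate InnerProductSpace BoundedContinuousFunction

namespace Pool.Agent.U591.LC

open Pool.Agent.U37.LC

theorem norm_ee (X Y : ℝ → ℝ) (p η s : ℝ) : ‖ee X Y p η s‖ = 1 := by
  have h : ee X Y p η s = cexp (((2 * Real.pi * (p * X s + η * Y s) : ℝ) : ℂ) * I) := by
    unfold ee
    congr 1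
    push_cast
    ring
  rw [h, Complex.norm_exp_ofReal_mul_I]

theorem continuous_ee {X Y : ℝ → ℝ} (hX : Continuous X) (hY : Continuous Y) :
    Continuous (fun z : (ℤ × ℝ) × ℝ => ee X Y z.1.1 z.1.2 z.2) := by
  unfold ee
  have h1 : Continuous (fun z : (ℤ × ℝ) × ℝ => (((z.1.1 : ℤ) : ℝ))) :=
    (continuous_of_discreteTopology (f := fun n : ℤ => (n : ℝ))).comp
      (continuous_fst.comp continuous_fst)
  fun_prop

theorem continuous_rho : Continuous (fun q : ℤ × ℝ => rho q.1 q.2) := by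
  unfold rho
  have h1 : Continuous (fun z : ℤ × ℝ => (((z.1 : ℤ) : ℝ))) :=
    (continuous_of_discreteTopology (f := fun n : ℤ => (n : ℝ))).comp continuous_fst
  fun_prop

theorem rho_pos (n : ℤ) (η : ℝ) : 0 < rho n η := by
  unfold rho
  positivity

theorem one_le_rho (n : ℤ) (η : ℝ) : 1 ≤ rho n η := by
  unfold rho
  nlinarith [sq_nonneg (n : ℝ), sq_nonneg η]

theorem rho_mul (n : ℤ) (η : ℝ) : rho n η ^ (-(3 / 8) : ℝ) * rho n η ^ (-(3 / 8) : ℝ) =
    rho n η ^ (-(3 / 4) : ℝ) := by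
  rw [← Real.rpow_add (rho_pos n η)]
  norm_num

instance instSFiniteNu : SFinite nu := by
  unfold nu
  infer_instance

theorem jobKer : JobKer := by
  intro L X Y hC D hD ψ hψ k hk a b
  set ρ : Measure ℝ := (volume : Measure ℝ).restrict (Set.Ioc (0 : ℝ) L) with hρ
  have ha : Integrable (fun s => (a s : ℂ)) ρ := (Lp.memLp a).integrable (by norm_num)
  have hb : Integrable (fun s => (b s : ℂ)) ρ := (Lp.memLp b).integrable (by norm_num)
  have ha' : Integrable (fun s => conj (a s : ℂ)) ρ := by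
    refine ha.congr' (f := fun s => (a s : ℂ)) ?_ ?_
    · exact Complex.continuous_conj.comp_aestronglyMeasurable ha.1
    · exact Eventually.of_forall fun s => by simp
  set w : ℤ × ℝ → ℂ := fun q => ((rho q.1 q.2 ^ (-(3 / 4) : ℝ) : ℝ) : ℂ) * ψ q with hw
  have hH : Integrable (fun z : (ℤ × ℝ) × (ℝ × ℝ) => w z.1 * (conj (a z.2.1 : ℂ) * b z.2.2))
      (nu.prod (ρ.prod ρ)) := by
    have h1 := ha'.mul_prod hb
    exact hψ.mul_prod h1
  have hF : Integrable (fun z : (ℤ × ℝ) × (ℝ × ℝ) => w z.1 *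
      ((ee X Y z.1.1 z.1.2 z.2.1 * conj (a z.2.1 : ℂ)) *
        (conj (ee X Y z.1.1 z.1.2 z.2.2) * b z.2.2))) (nu.prod (ρ.prod ρ)) := by
    have h2 : Continuous (fun z : (ℤ × ℝ) × (ℝ × ℝ) => ee X Y z.1.1 z.1.2 z.2.1 *
        conj (ee X Y z.1.1 z.1.2 z.2.2)) := by
      have h3 := continuous_ee hC.contX hC.contY
      refine Continuous.mul ?_ ?_
      · exact h3.comp (f := fun z : (ℤ × ℝ) × (ℝ × ℝ) => (z.1, z.2.1)) (by fun_prop)
      · exact Complex.continuous_conj.comp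
          (h3.comp (f := fun z : (ℤ × ℝ) × (ℝ × ℝ) => (z.1, z.2.2)) (by fun_prop))
    have h4 : (fun z : (ℤ × ℝ) × (ℝ × ℝ) => w z.1 *
      ((ee X Y z.1.1 z.1.2 z.2.1 * conj (a z.2.1 : ℂ)) *
        (conj (ee X Y z.1.1 z.1.2 z.2.2) * b z.2.2))) =
        fun z => (ee X Y z.1.1 z.1.2 z.2.1 * conj (ee X Y z.1.1 z.1.2 z.2.2)) *
          (w z.1 * (conj (a z.2.1 : ℂ) * b z.2.2)) := by
      funext z
      ring
    rw [h4]
    refine hH.mono (h2.aestronglyMeasurable.mul hH.1) (Eventually.of_forall fun z => ?_)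
    rw [norm_mul, norm_mul, RCLike.norm_conj, norm_ee, norm_ee, one_mul, one_mul]
  -- the left hand side
  have hL : ⟪D a, mulB nu ψ (D b)⟫_ℂ = ∫ q : ℤ × ℝ, ∫ p : ℝ × ℝ, w q *
      ((ee X Y q.1 q.2 p.1 * conj (a p.1 : ℂ)) *
        (conj (ee X Y q.1 q.2 p.2) * b p.2)) ∂(ρ.prod ρ) ∂nu := by
    rw [mulB_inner]
    refine integral_congr_ae ?_
    filter_upwards [hD a, hD b] with q h1 h2
    rw [h1, h2, integral_const_mul, integral_prod_mul (f := fun s => ee X Y q.1 q.2 s *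
      conj (a s : ℂ)) (g := fun t => conj (ee X Y q.1 q.2 t) * b t)]
    have h3 : conj (cf L X Y q.1 q.2 a) = ∫ s, ee X Y q.1 q.2 s * conj (a s : ℂ) ∂ρ := by
      unfold cf
      rw [← integral_conj]
      refine integral_congr_ae (Eventually.of_forall fun s => ?_)
      simp only [map_mul, Complex.conj_conj]
    rw [map_mul, Complex.conj_ofReal, h3, hw]
    simp only
    rw [← rho_mul]
    unfold cf
    push_cast
    ring
  have hR : ∫ s in Set.Ioc (0 : ℝ) L, conj (a s : ℂ) *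
      ∫ t in Set.Ioc (0 : ℝ) L, k (s, t) * b t =
      ∫ p : ℝ × ℝ, conj (a p.1 : ℂ) * (k p * b p.2) ∂(ρ.prod ρ) := by
    rw [integral_prod]
    · refine integral_congr_ae (Eventually.of_forall fun s => ?_)
      simp only
      rw [integral_const_mul]
    · have h5 := ha'.mul_prod hb
      have h6 : (fun p : ℝ × ℝ => conj (a p.1 : ℂ) * (k p * b p.2)) =
          fun p => k p * (conj (a p.1 : ℂ) * b p.2) := by
        funext p
        ring
      rw [h6]
      refine (h5.norm.const_mul ‖k‖).mono' (k.continuous.aestronglyMeasurable.mul h5.1)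
        (Eventually.of_forall fun p => ?_)
      rw [norm_mul]
      exact mul_le_mul_of_nonneg_right (k.norm_coe_le_norm p) (norm_nonneg _)
  rw [hL, hR, integral_integral_swap (f := fun (q : ℤ × ℝ) (p : ℝ × ℝ) => w q *
      ((ee X Y q.1 q.2 p.1 * conj (a p.1 : ℂ)) *
        (conj (ee X Y q.1 q.2 p.2) * b p.2))) hF]
  have hae : ∀ᵐ p : ℝ × ℝ ∂(ρ.prod ρ), p.1 ∈ Set.Ioc (0 : ℝ) L ∧ p.2 ∈ Set.Ioc (0 : ℝ) L := by
    rw [hρ, Measure.prod_restrict]
    filter_upwards [ae_restrict_mem (measurableSet_Ioc.prod measurableSet_Ioc)] with p hp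
    exact hp
  refine integral_congr_ae ?_
  filter_upwards [hae] with p hp
  have h7 := hk p.1 hp.1 p.2 hp.2
  rw [Prod.mk.eta] at h7
  rw [h7]
  have h8 : (fun q : ℤ × ℝ => w q * ((ee X Y q.1 q.2 p.1 * conj (a p.1 : ℂ)) *
        (conj (ee X Y q.1 q.2 p.2) * b p.2))) = fun q => (conj (a p.1 : ℂ) * b p.2) *
        (((rho q.1 q.2 ^ (-(3 / 4) : ℝ) : ℝ) : ℂ) * ψ q * (ee X Y q.1 q.2 p.1 *
      conj (ee X Y q.1 q.2 p.2))) := by
    funext q
    rw [hw]
    ring
  rw [h8, integral_const_mul]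
  ring

end Pool.Agent.U591.LC
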