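import Mathlib
import Pool.Agent.U591.LC.Ker

/-!
Project LC, job `ApproxN`.
-/

set_option autoImplicit false

open MeasureTheory Filter Topology Complex
open scoped ComplexConjugate InnerProductSpace BoundedContinuousFunction

namespace Pool.Agent.U591.LC

open Pool.Agent.U37.LC

/-- the cut-off function -/
noncomputable def cutR (R : ℝ) (q : ℤ × ℝ) : ℝ := max 0 (min 1 (2 - rho q.1 q.2 / R))

theorem cutR_nonneg (R : ℝ) (q : ℤ × ℝ) : 0 ≤ cutR R q := le_max_left _ _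

theorem cutR_le_one (R : ℝ) (q : ℤ × ℝ) : cutR R q ≤ 1 :=
  max_le zero_le_one (min_le_left _ _)

theorem continuous_cutR (R : ℝ) : Continuous (cutR R) := by
  unfold cutR
  have := continuous_rho
  fun_prop

theorem cutR_eq_one {R : ℝ} (hR : 0 < R) {q : ℤ × ℝ} (h : rho q.1 q.2 ≤ R) : cutR R q = 1 := by
  unfold cutR
  have h1 : rho q.1 q.2 / R ≤ 1 := (div_le_one hR).2 h
  rw [min_eq_left (by linarith), max_eq_right zero_le_one]

theorem cutR_eq_zero {R : ℝ} (hR : 0 < R) {q : ℤ × ℝ} (h : 2 * R ≤ rho q.1 q.2) :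
    cutR R q = 0 := by
  unfold cutR
  have h1 : 2 ≤ rho q.1 q.2 / R := (le_div_iff₀ hR).2 h
  rw [min_eq_right (by linarith), max_eq_left (by linarith)]

/-- the cut-off symbol -/
noncomputable def cutB (R : ℝ) (ψ : ℤ × ℝ →ᵇ ℂ) : ℤ × ℝ →ᵇ ℂ :=
  BoundedContinuousFunction.ofNormedAddCommGroup (fun q => (cutR R q : ℂ) * ψ q)
    ((Complex.continuous_ofReal.comp (continuous_cutR R)).mul ψ.continuous) ‖ψ‖ (fun q => by
      rw [norm_mul, Complex.norm_real, Real.norm_of_nonneg (cutR_nonneg R q)]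
      calc cutR R q * ‖ψ q‖ ≤ 1 * ‖ψ‖ :=
            mul_le_mul (cutR_le_one R q) (ψ.norm_coe_le_norm q) (norm_nonneg _) zero_le_one
        _ = ‖ψ‖ := one_mul _)

theorem cutB_apply (R : ℝ) (ψ : ℤ × ℝ →ᵇ ℂ) (q : ℤ × ℝ) :
    cutB R ψ q = (cutR R q : ℂ) * ψ q := rfl

theorem cutB_near (R : ℝ) (hR : 0 < R) (ψ : ℤ × ℝ →ᵇ ℂ) (ε : ℝ) (hε : 0 ≤ ε)
    (h : ∀ q : ℤ × ℝ, R ≤ rho q.1 q.2 → ‖ψ q‖ ≤ ε) : ‖ψ - cutB R ψ‖ ≤ ε := by
  rw [BoundedContinuousFunction.norm_le hε]
  intro q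
  rw [BoundedContinuousFunction.sub_apply, cutB_apply]
  rcases le_total (rho q.1 q.2) R with h1 | h1
  · rw [cutR_eq_one hR h1]
    simpa using hε
  · have h2 : ψ q - (cutR R q : ℂ) * ψ q = ((1 - cutR R q : ℝ) : ℂ) * ψ q := by
      push_cast
      ring
    rw [h2, norm_mul, Complex.norm_real, Real.norm_of_nonneg (by linarith [cutR_le_one R q])]
    calc (1 - cutR R q) * ‖ψ q‖ ≤ 1 * ε :=
          mul_le_mul (by linarith [cutR_nonneg R q]) (h q h1) (norm_nonneg _) zero_le_one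
      _ = ε := one_mul _

/-- sublevel sets of `rho` have finite measure -/
theorem nu_sublevel (R : ℝ) : nu {q : ℤ × ℝ | rho q.1 q.2 ≤ R} < ⊤ := by
  rcases lt_or_ge R 0 with hR | hR
  · have : {q : ℤ × ℝ | rho q.1 q.2 ≤ R} = ∅ := by
      ext q
      simp only [Set.mem_setOf_eq, Set.mem_empty_iff_false, iff_false, not_le]
      exact hR.trans (rho_pos _ _)
    rw [this]
    simp
  · obtain ⟨N, hN⟩ := exists_nat_ge (R + 1)
    have hsub : {q : ℤ × ℝ | rho q.1 q.2 ≤ R} ⊆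
        (Set.Icc (-(N : ℤ)) N) ×ˢ (Set.Icc (-(N : ℝ)) N) := by
      intro q hq
      simp only [Set.mem_setOf_eq, rho] at hq
      have h1 : ((q.1 : ℤ) : ℝ) ^ 2 ≤ (N : ℝ) ^ 2 := by
        nlinarith [sq_nonneg q.2, sq_nonneg (q.1 : ℝ)]
      have h2 : q.2 ^ 2 ≤ (N : ℝ) ^ 2 := by
        nlinarith [sq_nonneg q.2, sq_nonneg (q.1 : ℝ)]
      have h3 := abs_le_of_sq_le_sq' h1 (by positivity)
      have h4 := abs_le_of_sq_le_sq' h2 (by positivity)
      refine ⟨⟨?_, ?_⟩, ⟨h4.1, h4.2⟩⟩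
      · exact_mod_cast h3.1
      · exact_mod_cast h3.2
    refine (measure_mono hsub).trans_lt ?_
    unfold nu
    rw [Measure.prod_prod]
    refine ENNReal.mul_lt_top ?_ ?_
    · rw [Measure.count_apply_finite _ (Set.finite_Icc _ _)]
      exact ENNReal.natCast_lt_top _
    · rw [Real.volume_Icc]
      exact ENNReal.ofReal_lt_top

theorem integrable_cut (R : ℝ) (hR : 0 < R) (ψ : ℤ × ℝ →ᵇ ℂ) :
    Integrable (fun q : ℤ × ℝ => ((rho q.1 q.2 ^ (-(3 / 4) : ℝ) : ℝ) : ℂ) * cutB R ψ q) nu := by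
  have hcont : Continuous (fun q : ℤ × ℝ =>
      ((rho q.1 q.2 ^ (-(3 / 4) : ℝ) : ℝ) : ℂ) * cutB R ψ q) := by
    refine Continuous.mul ?_ (cutB R ψ).continuous
    refine Complex.continuous_ofReal.comp ?_
    exact continuous_rho.rpow_const (fun q => Or.inl (rho_pos _ _).ne')
  have hmeas : MeasurableSet {q : ℤ × ℝ | rho q.1 q.2 ≤ 2 * R} :=
    (isClosed_le continuous_rho continuous_const).measurableSet
  have h1 : Integrable ({q : ℤ × ℝ | rho q.1 q.2 ≤ 2 * R}.indicator (fun _ => ‖ψ‖)) nu := by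
    rw [integrable_indicator_iff hmeas]
    exact integrableOn_const (nu_sublevel (2 * R)).ne
  refine h1.mono' hcont.aestronglyMeasurable (Eventually.of_forall fun q => ?_)
  by_cases hq : rho q.1 q.2 ≤ 2 * R
  · rw [Set.indicator_of_mem (show q ∈ {q : ℤ × ℝ | rho q.1 q.2 ≤ 2 * R} from hq), norm_mul,
      Complex.norm_real, Real.norm_of_nonneg (Real.rpow_nonneg (rho_pos _ _).le _)]
    have h2 : rho q.1 q.2 ^ (-(3 / 4) : ℝ) ≤ 1 :=
      Real.rpow_le_one_of_one_le_of_nonpos (one_le_rho _ _) (by norm_num)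
    have h3 : ‖cutB R ψ q‖ ≤ ‖ψ‖ := by
      rw [cutB_apply, norm_mul, Complex.norm_real, Real.norm_of_nonneg (cutR_nonneg R q)]
      calc cutR R q * ‖ψ q‖ ≤ 1 * ‖ψ‖ :=
            mul_le_mul (cutR_le_one R q) (ψ.norm_coe_le_norm q) (norm_nonneg _) zero_le_one
        _ = ‖ψ‖ := one_mul _
    calc rho q.1 q.2 ^ (-(3 / 4) : ℝ) * ‖cutB R ψ q‖ ≤ 1 * ‖ψ‖ :=
          mul_le_mul h2 h3 (norm_nonneg _) zero_le_one
      _ = ‖ψ‖ := one_mul _
  · rw [Set.indicator_of_notMem (show q ∉ {q : ℤ × ℝ | rho q.1 q.2 ≤ 2 * R} from hq),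
      cutB_apply, cutR_eq_zero hR (not_le.1 hq).le]
    simp

/-- the kernel -/
noncomputable def ker {X Y : ℝ → ℝ} (hX : Continuous X) (hY : Continuous Y) (w : ℤ × ℝ → ℂ)
    (hw : Integrable w nu) : ℝ × ℝ →ᵇ ℂ :=
  BoundedContinuousFunction.ofNormedAddCommGroup (fun p : ℝ × ℝ => ∫ q : ℤ × ℝ, w q *
    (ee X Y q.1 q.2 p.1 * conj (ee X Y q.1 q.2 p.2)) ∂nu)
    (by
      have h3 := continuous_ee hX hY
      refine continuous_of_dominated (bound := fun q => ‖w q‖) ?_ ?_ hw.norm ?_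
      · intro p
        refine hw.1.mul (Continuous.aestronglyMeasurable ?_)
        refine Continuous.mul ?_ ?_
        · exact h3.comp (f := fun q : ℤ × ℝ => (q, p.1)) (by fun_prop)
        · exact Complex.continuous_conj.comp
            (h3.comp (f := fun q : ℤ × ℝ => (q, p.2)) (by fun_prop))
      · intro p
        refine Eventually.of_forall fun q => ?_
        rw [norm_mul, norm_mul, RCLike.norm_conj, norm_ee, norm_ee, mul_one, mul_one]
      · refine Eventually.of_forall fun q => ?_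
        refine Continuous.mul continuous_const ?_
        refine Continuous.mul ?_ ?_
        · exact h3.comp (f := fun p : ℝ × ℝ => (q, p.1)) (by fun_prop)
        · exact Complex.continuous_conj.comp
            (h3.comp (f := fun p : ℝ × ℝ => (q, p.2)) (by fun_prop)))
    (∫ q, ‖w q‖ ∂nu) (fun p => by
      refine (norm_integral_le_integral_norm _).trans (le_of_eq ?_)
      refine integral_congr_ae (Eventually.of_forall fun q => ?_)
      simp only
      rw [norm_mul, norm_mul, RCLike.norm_conj, norm_ee, norm_ee, mul_one, mul_one])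

theorem ker_apply {X Y : ℝ → ℝ} (hX : Continuous X) (hY : Continuous Y) (w : ℤ × ℝ → ℂ)
    (hw : Integrable w nu) (p : ℝ × ℝ) : ker hX hY w hw p = ∫ q : ℤ × ℝ, w q *
    (ee X Y q.1 q.2 p.1 * conj (ee X Y q.1 q.2 p.2)) ∂nu := rfl

theorem jobApproxN (hK : JobKernel) (hKer : JobKer) : JobApproxN := by
  intro L X Y hC D hD ψ hψ ε hε
  obtain ⟨K, hK1, hK2⟩ := hK L hC.pos
  set C0 : ℝ := ‖D‖ ^ 2 + 1 with hC0
  have hC0p : 0 < C0 := by positivity
  obtain ⟨R₀, hR₀⟩ := hψ (ε / (2 * C0)) (by positivity)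
  set R : ℝ := max R₀ 1 with hRdef
  have hR : 0 < R := lt_of_lt_of_le one_pos (le_max_right _ _)
  have hnear : ‖ψ - cutB R ψ‖ ≤ ε / (2 * C0) :=
    cutB_near R hR ψ _ (by positivity) (fun q hq => hR₀ q ((le_max_left _ _).trans hq))
  have hint := integrable_cut R hR ψ
  set k := ker hC.contX hC.contY _ hint with hk
  have hform := hKer L X Y hC D hD (cutB R ψ) hint k (fun s _ t _ => by
    rw [hk, ker_apply])
  have heq : (ContinuousLinearMap.adjoint D).comp ((mulB nu (cutB R ψ)).comp D) = K k := by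
    ext1 b
    refine ext_inner_left ℂ fun a => ?_
    rw [hK1 k a b, ← hform a b]
    simp only [ContinuousLinearMap.comp_apply]
    rw [ContinuousLinearMap.adjoint_inner_right]
  obtain ⟨r, u, v, huv⟩ := hK2 k (ε / 2) (by positivity)
  refine ⟨r, u, v, ?_⟩
  have h1 : (ContinuousLinearMap.adjoint D).comp ((mulB nu ψ).comp D) - u.comp v =
      (ContinuousLinearMap.adjoint D).comp ((mulB nu (ψ - cutB R ψ)).comp D) +
        (K k - u.comp v) := by
    rw [← heq, map_sub]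
    ext1 b
    simp only [ContinuousLinearMap.sub_apply, ContinuousLinearMap.add_apply,
      ContinuousLinearMap.comp_apply, map_sub]
    abel
  rw [h1]
  have h2 : ‖(ContinuousLinearMap.adjoint D).comp ((mulB nu (ψ - cutB R ψ)).comp D)‖ ≤
      ε / 2 := by
    calc ‖(ContinuousLinearMap.adjoint D).comp ((mulB nu (ψ - cutB R ψ)).comp D)‖
        ≤ ‖ContinuousLinearMap.adjoint D‖ * ‖(mulB nu (ψ - cutB R ψ)).comp D‖ :=
          ContinuousLinearMap.opNorm_comp_le _ _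
      _ ≤ ‖ContinuousLinearMap.adjoint D‖ * (‖mulB nu (ψ - cutB R ψ)‖ * ‖D‖) :=
          mul_le_mul_of_nonneg_left (ContinuousLinearMap.opNorm_comp_le _ _) (norm_nonneg _)
      _ = ‖D‖ ^ 2 * ‖mulB nu (ψ - cutB R ψ)‖ := by
          rw [LinearIsometryEquiv.norm_map]
          ring
      _ ≤ C0 * (ε / (2 * C0)) := by
          refine mul_le_mul (by rw [hC0]; linarith) ((mulB_norm _ _).trans hnear)
            (norm_nonneg _) hC0p.le
      _ = ε / 2 := by
          field_simp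
  calc ‖(ContinuousLinearMap.adjoint D).comp ((mulB nu (ψ - cutB R ψ)).comp D) +
        (K k - u.comp v)‖ ≤ _ := norm_add_le _ _
    _ < ε / 2 + ε / 2 := add_lt_add_of_le_of_lt h2 huv
    _ = ε := by ring

end Pool.Agent.U591.LC
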